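import Pool.Agent.MQG.StmtsB

set_option autoImplicit false

namespace Pool.Agent.MQG.H59

open scoped InnerProductSpace InnerProduct Topology
open Complex Filter

variable {ι κ κ' : Type}

theorem norm_le_one_of_unitary {α : Type} {U : Op α} (h : U ∈ unitary (Op α)) : ‖U‖ ≤ 1 := by
  refine ContinuousLinearMap.opNorm_le_bound _ zero_le_one fun x => ?_
  have h1 : star U * U = 1 := (Unitary.mem_iff.1 h).1
  have h2 : ⟪U x, U x⟫_ℂ = ⟪x, x⟫_ℂ := by
    rw [← ContinuousLinearMap.adjoint_inner_right, ← ContinuousLinearMap.star_eq_adjoint]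
    have h3 : (star U) (U x) = (star U * U) x := rfl
    rw [h3, h1]
    rfl
  have h4 : ‖U x‖ ^ 2 = ‖x‖ ^ 2 := by
    rw [inner_self_eq_norm_sq_to_K, inner_self_eq_norm_sq_to_K] at h2
    exact_mod_cast h2
  have h5 : ‖U x‖ = ‖x‖ := (pow_left_inj₀ (norm_nonneg _) (norm_nonneg _) two_ne_zero).1 h4
  rw [h5, one_mul]

theorem lno : LnoStmt := by
  intro ι κ U hU μ
  refine ContinuousLinearMap.opNorm_le_bound _ (norm_nonneg _) fun y => ?_
  have h1 : ‖lam U μ y‖ * ‖lam U μ y‖ ≤ ‖μ‖ * ‖y‖ * ‖lam U μ y‖ := by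
    have h2 : ‖⟪lam U μ y, lam U μ y⟫_ℂ‖ = ‖lam U μ y‖ * ‖lam U μ y‖ := by
      rw [inner_self_eq_norm_sq_to_K]
      simp [sq]
    rw [← h2, inner_lam]
    have h3 := μ.le_opNorm (asl U (lam U μ y) y)
    have h4 : ‖asl U (lam U μ y) y‖ ≤ ‖U‖ * ‖lam U μ y‖ * ‖y‖ := norm_sl_le U _ _
    have h5 : ‖U‖ * ‖lam U μ y‖ * ‖y‖ ≤ 1 * ‖lam U μ y‖ * ‖y‖ := by
      gcongr
      exact norm_le_one_of_unitary hU
    calc _ ≤ ‖μ‖ * ‖asl U (lam U μ y) y‖ := h3
      _ ≤ ‖μ‖ * (1 * ‖lam U μ y‖ * ‖y‖) := by gcongr; exact h4.trans h5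
      _ = _ := by ring
  rcases eq_or_lt_of_le (norm_nonneg (lam U μ y)) with h0 | h0
  · rw [← h0]
    positivity
  · exact le_of_mul_le_mul_right h1 h0

theorem dns (asp : AspStmt) : DnsStmt := by
  intro ι M κ U hU a
  have h1 := asp ι M κ U hU (val a) (val_mem a)
  rw [Metric.mem_closure_iff] at h1 ⊢
  intro ε hε
  obtain ⟨T, hT, h2⟩ := h1 ε hε
  have h3 : ∀ T ∈ Submodule.span ℂ {T : Op κ | ∃ u y, T = sl U u y},
      ∃ b ∈ Submodule.span ℂ {a : Al U | ∃ u y, a = asl U u y}, val b = T := by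
    intro T hT
    induction hT using Submodule.span_induction with
    | mem T hT =>
      obtain ⟨u, y, rfl⟩ := hT
      exact ⟨asl U u y, Submodule.subset_span ⟨u, y, rfl⟩, rfl⟩
    | zero => exact ⟨0, zero_mem _, map_zero _⟩
    | add x y _ _ hx hy =>
      obtain ⟨b, hb, h1⟩ := hx
      obtain ⟨c, hc, h3⟩ := hy
      exact ⟨b + c, add_mem hb hc, by rw [map_add, h1, h3]⟩
    | smul r x _ hx =>
      obtain ⟨b, hb, h1⟩ := hx
      exact ⟨r • b, Submodule.smul_mem _ r hb, by rw [map_smul, h1]⟩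
  obtain ⟨b, hb, rfl⟩ := h3 T hT
  refine ⟨b, hb, ?_⟩
  rw [dist_eq_norm] at h2 ⊢
  rw [← norm_val, map_sub]
  exact h2

end Pool.Agent.MQG.H59
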