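import Pool.Agent.MQG.StmtsB

set_option autoImplicit false

namespace Pool.Agent.MQG.H59

open scoped InnerProductSpace InnerProduct Topology
open Complex Filter

variable {ι κ κ' : Type}

theorem emb_adj_emb {α β γ : Type} (e : γ ≃ α × β) (u h : L2 β) :
    (emb e u)† ∘L (emb e h) = ⟪u, h⟫_ℂ • (1 : Op α) := by
  refine ContinuousLinearMap.ext fun y => ext_inner_left ℂ fun x => ?_
  rw [ContinuousLinearMap.comp_apply, ContinuousLinearMap.adjoint_inner_right, emb_apply,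
    emb_apply, inner_tl, smul_apply, inner_smul_right, mul_comm]
  rfl

theorem col_adj_col (a b : Op κ) (u h : L2 ι) :
    (col a u)† ∘L (col b h) = ⟪u, h⟫_ℂ • (star a * b) := by
  have h1 : (col a u)† ∘L (col b h) =
      a† ∘L ((emb (Equiv.refl (κ × ι)) u)† ∘L (emb (Equiv.refl (κ × ι)) h)) ∘L b := by
    rw [col, col, ContinuousLinearMap.adjoint_comp]
    rfl
  rw [h1, emb_adj_emb]
  ext x
  simp [ContinuousLinearMap.star_eq_adjoint]

/-- the closed range of `b ↦ (b, π b)` -/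
theorem isClosed_graph (U : Op (κ × ι)) (π : Al U →⋆ₙₐ[ℂ] Op κ') :
    IsClosed {p : Op κ × Op κ' | ∃ b : Al U, val b = p.1 ∧ π b = p.2} := by
  have h1 : Isometry fun b : Al U => ((val b, π b) : Op κ × Op κ') := by
    refine Isometry.of_dist_eq fun a b => ?_
    rw [Prod.dist_eq]
    have h2 : dist (val a) (val b) = dist a b := by
      rw [dist_eq_norm, dist_eq_norm, ← map_sub, norm_val]
    have h3 : dist (π a) (π b) ≤ dist a b := by
      rw [dist_eq_norm, dist_eq_norm, ← map_sub]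
      exact NonUnitalStarAlgHom.norm_apply_le _ _
    simp only
    rw [h2]
    exact max_eq_left h3
  have h2 := h1.isClosedEmbedding.isClosed_range
  have h3 : {p : Op κ × Op κ' | ∃ b : Al U, val b = p.1 ∧ π b = p.2} =
      Set.range fun b : Al U => ((val b, π b) : Op κ × Op κ') := by
    ext p
    constructor
    · rintro ⟨b, h3, h4⟩
      exact ⟨b, Prod.ext h3 h4⟩
    · rintro ⟨b, h3⟩
      exact ⟨b, congrArg Prod.fst h3, congrArg Prod.snd h3⟩
  rw [h3]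
  exact h2

section

variable (U : Op (κ × ι)) (π : Al U →⋆ₙₐ[ℂ] Op κ')

/-- the graph of the action on columns -/
noncomputable def Gr : Submodule ℂ ((L2 κ →L[ℂ] L2 (κ × ι)) × (L2 κ' →L[ℂ] L2 (κ' × ι))) :=
  (Submodule.span ℂ {p | ∃ (a : Al U) (h : L2 ι), p = (col (val a) h, col (π a) h)}).topologicalClosure

theorem gr_inner {p q : (L2 κ →L[ℂ] L2 (κ × ι)) × (L2 κ' →L[ℂ] L2 (κ' × ι))}
    (hp : p ∈ Gr U π) (hq : q ∈ Gr U π) : ∃ b : Al U, val b = (p.1)† ∘L q.1 ∧ π b = (p.2)† ∘L q.2 := by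
  have hS : IsClosed {r : ((L2 κ →L[ℂ] L2 (κ × ι)) × (L2 κ' →L[ℂ] L2 (κ' × ι))) ×
      ((L2 κ →L[ℂ] L2 (κ × ι)) × (L2 κ' →L[ℂ] L2 (κ' × ι))) |
      ∃ b : Al U, val b = (r.1.1)† ∘L r.2.1 ∧ π b = (r.1.2)† ∘L r.2.2} := by
    have hc : Continuous fun r : ((L2 κ →L[ℂ] L2 (κ × ι)) × (L2 κ' →L[ℂ] L2 (κ' × ι))) ×
      ((L2 κ →L[ℂ] L2 (κ × ι)) × (L2 κ' →L[ℂ] L2 (κ' × ι))) =>
      (((r.1.1)† ∘L r.2.1, (r.1.2)† ∘L r.2.2) : Op κ × Op κ') := by
      refine Continuous.prodMk ?_ ?_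
      · exact (((ContinuousLinearMap.adjoint).continuous.comp
          (continuous_fst.comp continuous_fst))).clm_comp (continuous_fst.comp continuous_snd)
      · exact (((ContinuousLinearMap.adjoint).continuous.comp
          (continuous_snd.comp continuous_fst))).clm_comp (continuous_snd.comp continuous_snd)
    exact (isClosed_graph U π).preimage hc
  have h0 : ∀ p q, p ∈ Submodule.span ℂ {p : (L2 κ →L[ℂ] L2 (κ × ι)) × (L2 κ' →L[ℂ] L2 (κ' × ι)) |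
      ∃ (a : Al U) (h : L2 ι), p = (col (val a) h, col (π a) h)} →
      q ∈ Submodule.span ℂ {p : (L2 κ →L[ℂ] L2 (κ × ι)) × (L2 κ' →L[ℂ] L2 (κ' × ι)) |
      ∃ (a : Al U) (h : L2 ι), p = (col (val a) h, col (π a) h)} →
      ∃ b : Al U, val b = (p.1)† ∘L q.1 ∧ π b = (p.2)† ∘L q.2 := by
    intro p q hp hq
    induction hp using Submodule.span_induction with
    | mem p hp =>
      obtain ⟨a, u, rfl⟩ := hp
      induction hq using Submodule.span_induction with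
      | mem q hq =>
        obtain ⟨b, h, rfl⟩ := hq
        refine ⟨⟪u, h⟫_ℂ • (star a * b), ?_, ?_⟩
        · rw [map_smul, map_mul, map_star, col_adj_col]
        · rw [map_smul, map_mul, map_star, col_adj_col]
      | zero => exact ⟨0, by simp, by simp⟩
      | add x y _ _ hx hy =>
        obtain ⟨b, h1, h2⟩ := hx
        obtain ⟨c, h3, h4⟩ := hy
        refine ⟨b + c, ?_, ?_⟩
        · rw [map_add, h1, h3]; exact (ContinuousLinearMap.comp_add _ _ _).symm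
        · rw [map_add, h2, h4]; exact (ContinuousLinearMap.comp_add _ _ _).symm
      | smul r x _ hx =>
        obtain ⟨b, h1, h2⟩ := hx
        refine ⟨r • b, ?_, ?_⟩
        · rw [map_smul, h1]; exact (ContinuousLinearMap.comp_smul _ _ _).symm
        · rw [map_smul, h2]; exact (ContinuousLinearMap.comp_smul _ _ _).symm
    | zero => exact ⟨0, by simp, by simp⟩
    | add x y _ _ hx hy =>
      obtain ⟨b, h1, h2⟩ := hx
      obtain ⟨c, h3, h4⟩ := hy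
      refine ⟨b + c, ?_, ?_⟩
      · rw [map_add, h1, h3, Prod.fst_add, map_add]; exact (ContinuousLinearMap.add_comp _ _ _).symm
      · rw [map_add, h2, h4, Prod.snd_add, map_add]; exact (ContinuousLinearMap.add_comp _ _ _).symm
    | smul r x _ hx =>
      obtain ⟨b, h1, h2⟩ := hx
      refine ⟨(starRingEnd ℂ) r • b, ?_, ?_⟩
      · rw [map_smul, h1, Prod.smul_fst, map_smulₛₗ]; exact (ContinuousLinearMap.smul_comp _ _ _).symm
      · rw [map_smul, h2, Prod.smul_snd, map_smulₛₗ]; exact (ContinuousLinearMap.smul_comp _ _ _).symm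
  have h1 : (p, q) ∈ closure ((Submodule.span ℂ {p : (L2 κ →L[ℂ] L2 (κ × ι)) × (L2 κ' →L[ℂ] L2 (κ' × ι)) |
      ∃ (a : Al U) (h : L2 ι), p = (col (val a) h, col (π a) h)} : Set _) ×ˢ
      (Submodule.span ℂ {p : (L2 κ →L[ℂ] L2 (κ × ι)) × (L2 κ' →L[ℂ] L2 (κ' × ι)) |
      ∃ (a : Al U) (h : L2 ι), p = (col (val a) h, col (π a) h)} : Set _)) := by
    rw [closure_prod_eq]
    exact ⟨hp, hq⟩
  have h2 := closure_minimal (fun r hr => h0 r.1 r.2 hr.1 hr.2) hS h1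
  exact h2

theorem gr_emb {p : (L2 κ →L[ℂ] L2 (κ × ι)) × (L2 κ' →L[ℂ] L2 (κ' × ι))}
    (hp : p ∈ Gr U π) (u : L2 ι) : ∃ b : Al U, val b = (emb (Equiv.refl (κ × ι)) u)† ∘L p.1 ∧
      π b = (emb (Equiv.refl (κ' × ι)) u)† ∘L p.2 := by
  have hS : IsClosed {r : (L2 κ →L[ℂ] L2 (κ × ι)) × (L2 κ' →L[ℂ] L2 (κ' × ι)) |
      ∃ b : Al U, val b = (emb (Equiv.refl (κ × ι)) u)† ∘L r.1 ∧
      π b = (emb (Equiv.refl (κ' × ι)) u)† ∘L r.2} := by
    have hc : Continuous fun r : (L2 κ →L[ℂ] L2 (κ × ι)) × (L2 κ' →L[ℂ] L2 (κ' × ι)) =>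
      (((emb (Equiv.refl (κ × ι)) u)† ∘L r.1, (emb (Equiv.refl (κ' × ι)) u)† ∘L r.2) :
        Op κ × Op κ') := by
      refine Continuous.prodMk ?_ ?_
      · exact continuous_const.clm_comp continuous_fst
      · exact continuous_const.clm_comp continuous_snd
    exact (isClosed_graph U π).preimage hc
  refine closure_minimal (fun p hp => ?_) hS hp
  have hp' : p ∈ Submodule.span ℂ {p : (L2 κ →L[ℂ] L2 (κ × ι)) × (L2 κ' →L[ℂ] L2 (κ' × ι)) |
      ∃ (a : Al U) (h : L2 ι), p = (col (val a) h, col (π a) h)} := hp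
  change ∃ b : Al U, val b = (emb (Equiv.refl (κ × ι)) u)† ∘L p.1 ∧
      π b = (emb (Equiv.refl (κ' × ι)) u)† ∘L p.2
  induction hp' using Submodule.span_induction with
  | mem q hq =>
    obtain ⟨b, h, rfl⟩ := hq
    refine ⟨⟪u, h⟫_ℂ • b, ?_, ?_⟩
    · change val (⟪u, h⟫_ℂ • b) = ((emb (Equiv.refl (κ × ι)) u)† ∘L emb (Equiv.refl (κ × ι)) h) ∘L val b
      rw [map_smul, emb_adj_emb]
      rfl
    · change π (⟪u, h⟫_ℂ • b) = ((emb (Equiv.refl (κ' × ι)) u)† ∘L emb (Equiv.refl (κ' × ι)) h) ∘L π b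
      rw [map_smul, emb_adj_emb]
      rfl
  | zero => exact ⟨0, by simp, by simp⟩
  | add x y hx' hy' hx hy =>
    obtain ⟨b, h1, h2⟩ := hx hx'
    obtain ⟨c, h3, h4⟩ := hy hy'
    refine ⟨b + c, ?_, ?_⟩
    · rw [map_add, h1, h3]; exact (ContinuousLinearMap.comp_add _ _ _).symm
    · rw [map_add, h2, h4]; exact (ContinuousLinearMap.comp_add _ _ _).symm
  | smul r x hx' hx =>
    obtain ⟨b, h1, h2⟩ := hx hx'
    refine ⟨r • b, ?_, ?_⟩
    · rw [map_smul, h1]; exact (ContinuousLinearMap.comp_smul _ _ _).symm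
    · rw [map_smul, h2]; exact (ContinuousLinearMap.comp_smul _ _ _).symm

theorem norm_sq_clm {α β : Type} (T : L2 α →L[ℂ] L2 β) : ‖T† ∘L T‖ = ‖T‖ * ‖T‖ :=
  ContinuousLinearMap.norm_adjoint_comp_self T

theorem gr_norm {p : (L2 κ →L[ℂ] L2 (κ × ι)) × (L2 κ' →L[ℂ] L2 (κ' × ι))}
    (hp : p ∈ Gr U π) : ‖p.2‖ ≤ ‖p.1‖ := by
  obtain ⟨b, h1, h2⟩ := gr_inner U π hp hp
  have h3 : ‖π b‖ ≤ ‖b‖ := NonUnitalStarAlgHom.norm_apply_le _ _
  rw [h2, ← norm_val, h1, norm_sq_clm, norm_sq_clm] at h3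
  exact (mul_self_le_mul_self_iff (norm_nonneg _) (norm_nonneg _)).2 h3

theorem gr_unique {S : L2 κ →L[ℂ] L2 (κ × ι)} {T T' : L2 κ' →L[ℂ] L2 (κ' × ι)}
    (h : (S, T) ∈ Gr U π) (h' : (S, T') ∈ Gr U π) : T = T' := by
  have h1 : ((S, T) : (L2 κ →L[ℂ] L2 (κ × ι)) × (L2 κ' →L[ℂ] L2 (κ' × ι))) - (S, T') ∈ Gr U π :=
    sub_mem h h'
  have h2 := gr_norm U π h1
  simp only [Prod.fst_sub, Prod.snd_sub, sub_self, norm_zero] at h2
  exact sub_eq_zero.1 (norm_le_zero_iff.1 h2)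

theorem gr_exists (S : L2 κ →L[ℂ] L2 (κ × ι)) (hS : S ∈ Cols U) :
    ∃ T : L2 κ' →L[ℂ] L2 (κ' × ι), (S, T) ∈ Gr U π := by
  have hiso : Isometry fun p : Gr U π => (p.1.1 : L2 κ →L[ℂ] L2 (κ × ι)) := by
    refine Isometry.of_dist_eq fun p q => ?_
    rw [dist_eq_norm, Subtype.dist_eq, dist_eq_norm]
    have h1 := gr_norm U π (sub_mem p.2 q.2)
    have h2 : ‖(p.1 - q.1 : (L2 κ →L[ℂ] L2 (κ × ι)) × (L2 κ' →L[ℂ] L2 (κ' × ι)))‖ =
        max ‖(p.1 - q.1).1‖ ‖(p.1 - q.1).2‖ := rfl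
    rw [h2, max_eq_left h1]
    rfl
  have : CompleteSpace (Gr U π) := (Submodule.isClosed_topologicalClosure _).completeSpace_coe
  have hcl := hiso.isClosedEmbedding.isClosed_range
  have h3 : S ∈ Set.range fun p : Gr U π => (p.1.1 : L2 κ →L[ℂ] L2 (κ × ι)) := by
    have h4 : (Cols U : Set (L2 κ →L[ℂ] L2 (κ × ι))) ⊆
        Set.range fun p : Gr U π => (p.1.1 : L2 κ →L[ℂ] L2 (κ × ι)) := by
      refine closure_minimal ?_ hcl
      intro T hT
      have hT' : T ∈ Submodule.span ℂ {T | ∃ a ∈ Aalg U, ∃ h : L2 ι, T = col a h} := hT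
      have h5 : Submodule.span ℂ {T | ∃ a ∈ Aalg U, ∃ h : L2 ι, T = col a h} ≤
          (Gr U π).map (LinearMap.fst ℂ _ _) := by
        rw [Submodule.span_le]
        rintro _ ⟨a, ha, h, rfl⟩
        refine ⟨(col (val (mkA a ha)) h, col (π (mkA a ha)) h), ?_, rfl⟩
        exact Submodule.le_topologicalClosure _ (Submodule.subset_span ⟨mkA a ha, h, rfl⟩)
      obtain ⟨p, hp, h6⟩ := h5 hT'
      exact ⟨⟨p, hp⟩, h6⟩
    exact h4 hS
  obtain ⟨p, h6⟩ := h3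
  refine ⟨p.1.2, ?_⟩
  have h7 : (S, p.1.2) = p.1 := Prod.ext h6.symm rfl
  rw [h7]
  exact p.2

end

theorem cpi : CpiStmt := by
  intro ι κ κ' U π
  choose f hf using fun T : Cols U => gr_exists U π T.1 T.2
  have hadd : ∀ S T, f (S + T) = f S + f T := by
    intro S T
    have h : ((S : L2 κ →L[ℂ] L2 (κ × ι)) + (T : L2 κ →L[ℂ] L2 (κ × ι)), f S + f T) ∈ Gr U π :=
      add_mem (hf S) (hf T)
    exact gr_unique U π (hf (S + T)) h
  have hsmul : ∀ (r : ℂ) S, f (r • S) = r • f S := by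
    intro r S
    have h : (r • (S : L2 κ →L[ℂ] L2 (κ × ι)), r • f S) ∈ Gr U π :=
      Submodule.smul_mem (Gr U π) r (hf S)
    exact gr_unique U π (hf (r • S)) h
  have hnorm : ∀ S : Cols U, ‖f S‖ ≤ 1 * ‖S‖ := by
    intro S
    have h := gr_norm U π (p := ((S : L2 κ →L[ℂ] L2 (κ × ι)), f S)) (hf S)
    rw [one_mul]
    exact h
  let P : Cols U →L[ℂ] (L2 κ' →L[ℂ] L2 (κ' × ι)) :=
    LinearMap.mkContinuous { toFun := f, map_add' := hadd, map_smul' := hsmul } 1 hnorm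
  have hP : ∀ T : Cols U, ((T : L2 κ →L[ℂ] L2 (κ × ι)), P T) ∈ Gr U π := hf
  refine ⟨P, ?_, ?_, ?_⟩
  · intro a h T hT
    refine gr_unique U π (hP T) ?_
    rw [hT]
    exact Submodule.le_topologicalClosure _ (Submodule.subset_span ⟨a, h, rfl⟩)
  · intro S T
    exact gr_inner U π (p := ((S : L2 κ →L[ℂ] L2 (κ × ι)), P S))
      (q := ((T : L2 κ →L[ℂ] L2 (κ × ι)), P T)) (hP S) (hP T)
  · intro u T
    exact gr_emb U π (p := ((T : L2 κ →L[ℂ] L2 (κ × ι)), P T)) (hP T) u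

end Pool.Agent.MQG.H59
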