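import Pool.Agent.Helper59_MQG.LNO

set_option autoImplicit false

namespace Pool.Agent.MQG.H59

open scoped InnerProductSpace InnerProduct Topology
open Complex Filter

variable {ι κ κ' : Type}

theorem finsupp_fin {X Y : Type} [AddCommGroup Y] [Module ℂ Y] (f : X →₀ ℂ) :
    ∃ (n : ℕ) (c : Fin n → ℂ) (x : Fin n → X), ∀ g : X → Y,
      Finsupp.linearCombination ℂ g f = ∑ j, c j • g (x j) := by
  refine ⟨f.support.card, fun j => f (f.support.equivFin.symm j), fun j => f.support.equivFin.symm j,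
    fun g => ?_⟩
  rw [Finsupp.linearCombination_apply, Finsupp.sum, ← Finset.sum_coe_sort]
  exact (Equiv.sum_comp f.support.equivFin.symm
    (fun p : f.support => f p • g p)).symm

theorem extend_aux {A : Type} [NormedAddCommGroup A] [NormedSpace ℂ A] [CompleteSpace A] {X : Type}
    (g h : X → A) (hd : Dense (Submodule.span ℂ (Set.range g) : Set A)) (C : ℝ) (hC : 0 ≤ C)
    (hb : ∀ (n : ℕ) (c : Fin n → ℂ) (x : Fin n → X),
      ‖∑ j, c j • h (x j)‖ ≤ C * ‖∑ j, c j • g (x j)‖) :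
    ∃ R : A →L[ℂ] A, ‖R‖ ≤ C ∧ ∀ x, R (g x) = h x := by
  have h1 : DenseRange (Finsupp.linearCombination ℂ g) := by
    have h2 : (Set.range (Finsupp.linearCombination ℂ g) : Set A) =
        (Submodule.span ℂ (Set.range g) : Set A) := by
      rw [← Finsupp.range_linearCombination]
      rfl
    rw [DenseRange, h2]
    exact hd
  have h3 : ∀ x : X →₀ ℂ, ‖Finsupp.linearCombination ℂ h x‖ ≤ C * ‖Finsupp.linearCombination ℂ g x‖ := by
    intro x
    obtain ⟨n, c, y, hy⟩ := finsupp_fin (Y := A) x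
    rw [hy, hy]
    exact hb n c y
  refine ⟨(Finsupp.linearCombination ℂ h).extendOfNorm (Finsupp.linearCombination ℂ g), ?_, fun x => ?_⟩
  · exact LinearMap.opNorm_extendOfNorm_le h1 hC h3
  · have h4 := LinearMap.extendOfNorm_eq (f := Finsupp.linearCombination ℂ h)
      (e := Finsupp.linearCombination ℂ g) h1 ⟨C, h3⟩ (Finsupp.single x 1)
    simpa using h4

theorem rlx (rbd : RbdStmt) (asp : AspStmt) : RlxStmt := by
  intro ι M κ WW hWW ν
  have hd := dns asp ι M κ WW hWW.adapted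
  have hd' : Dense (Submodule.span ℂ (Set.range fun p : L2 ι × L2 ι => asl WW p.1 p.2) :
      Set (Al WW)) := by
    have h1 : (Set.range fun p : L2 ι × L2 ι => asl WW p.1 p.2) =
        {a : Al WW | ∃ u y, a = asl WW u y} := by
      ext a
      constructor
      · rintro ⟨p, rfl⟩
        exact ⟨p.1, p.2, rfl⟩
      · rintro ⟨u, y, rfl⟩
        exact ⟨(u, y), rfl⟩
    rw [h1]
    exact hd
  constructor
  · obtain ⟨R, h1, h2⟩ := extend_aux (fun p : L2 ι × L2 ι => asl WW p.1 p.2)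
      (fun p : L2 ι × L2 ι => asl WW p.1 (lam WW ν p.2)) hd' ‖ν‖ (norm_nonneg _)
      (fun n c x => (rbd ι κ M.W WW hWW ν n c (fun j => (x j).1) (fun j => (x j).2)).1)
    exact ⟨R, h1, fun u y => h2 (u, y)⟩
  · obtain ⟨R, h1, h2⟩ := extend_aux (fun p : L2 ι × L2 ι => asl WW p.1 p.2)
      (fun p : L2 ι × L2 ι => asl WW (star (lam WW ν) p.1) p.2) hd' ‖ν‖ (norm_nonneg _)
      (fun n c x => (rbd ι κ M.W WW hWW ν n c (fun j => (x j).1) (fun j => (x j).2)).2)
    exact ⟨R, h1, fun u y => h2 (u, y)⟩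

end Pool.Agent.MQG.H59
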