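import Pool.Agent.Helper59_MQG.RLX

set_option autoImplicit false

namespace Pool.Agent.MQG.H59

open scoped InnerProductSpace InnerProduct Topology
open Complex Filter

variable {ι κ κ' : Type}

/-- a partially defined isometry extends -/
theorem isom_aux {E : Type} [NormedAddCommGroup E] [InnerProductSpace ℂ E] [CompleteSpace E]
    {X : Type} (d v : X → E) (hd : Dense (Submodule.span ℂ (Set.range d) : Set E))
    (h : ∀ i j, ⟪v i, v j⟫_ℂ = ⟪d i, d j⟫_ℂ) : ∃ R : E →L[ℂ] E, ∀ x, R (d x) = v x := by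
  obtain ⟨R, -, hR⟩ := extend_aux d v hd 1 zero_le_one (fun n c x => by
    have h1 : ‖∑ j, c j • v (x j)‖ ^ 2 = ‖∑ j, c j • d (x j)‖ ^ 2 := by
      have h2 : ⟪∑ j, c j • v (x j), ∑ j, c j • v (x j)⟫_ℂ =
          ⟪∑ j, c j • d (x j), ∑ j, c j • d (x j)⟫_ℂ := by
        simp only [sum_inner, inner_sum, inner_smul_left, inner_smul_right, h]
      rw [inner_self_eq_norm_sq_to_K, inner_self_eq_norm_sq_to_K] at h2
      exact_mod_cast h2
    rw [one_mul]
    exact ((pow_left_inj₀ (norm_nonneg _) (norm_nonneg _) two_ne_zero).1 h1).le)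
  exact ⟨R, hR⟩

theorem ext_dense {E F : Type} [NormedAddCommGroup E] [NormedSpace ℂ E] [NormedAddCommGroup F]
    [NormedSpace ℂ F] {X : Type} (d : X → E) (hd : Dense (Submodule.span ℂ (Set.range d) : Set E))
    (S T : E →L[ℂ] F) (h : ∀ x, S (d x) = T (d x)) : S = T := by
  refine ContinuousLinearMap.ext_on hd ?_
  rintro _ ⟨x, rfl⟩
  exact h x

theorem cols_mem {U : Op (κ × ι)} (X : Op (κ × ι))
    (hX : ∀ a ∈ Aalg U, ∀ h : L2 ι, X ∘L col a h ∈ Cols U) (T : L2 κ →L[ℂ] L2 (κ × ι))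
    (hT : T ∈ Cols U) : X ∘L T ∈ Cols U := by
  have hc : Continuous fun T : L2 κ →L[ℂ] L2 (κ × ι) => X ∘L T :=
    continuous_const.clm_comp continuous_id
  have hcl : IsClosed (Cols U : Set (L2 κ →L[ℂ] L2 (κ × ι))) :=
    Submodule.isClosed_topologicalClosure _
  have h1 : (Cols U : Set (L2 κ →L[ℂ] L2 (κ × ι))) ⊆
      (fun T : L2 κ →L[ℂ] L2 (κ × ι) => X ∘L T) ⁻¹' (Cols U : Set (L2 κ →L[ℂ] L2 (κ × ι))) := by
    refine closure_minimal ?_ (hcl.preimage hc)
    intro T hT
    have hT' : T ∈ Submodule.span ℂ {T | ∃ a ∈ Aalg U, ∃ h : L2 ι, T = col a h} := hT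
    change X ∘L T ∈ Cols U
    induction hT' using Submodule.span_induction with
    | mem T h0 =>
      obtain ⟨a, ha, h, rfl⟩ := h0
      exact hX a ha h
    | zero => rw [ContinuousLinearMap.comp_zero]; exact zero_mem _
    | add x y hx' hy' hx hy =>
      rw [ContinuousLinearMap.comp_add]; exact add_mem (hx hx') (hy hy')
    | smul r x hx' hx =>
      rw [ContinuousLinearMap.comp_smul]; exact Submodule.smul_mem _ r (hx hx')
  exact h1 hT

theorem upu (cpi : CpiStmt) (amu : AmuStmt) : UpuStmt := by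
  intro ι M κ U hU κ' π hπ
  obtain ⟨P, P1, P2, P3⟩ := cpi ι κ κ' U π
  have hUs : star U * U = 1 := (Unitary.mem_iff.1 hU.unit).1
  have hsU : U * star U = 1 := (Unitary.mem_iff.1 hU.unit).2
  have m1 : ∀ T : Cols U, U ∘L (T : L2 κ →L[ℂ] L2 (κ × ι)) ∈ Cols U :=
    fun T => cols_mem U (fun a ha h => (amu ι M κ U hU a ha h).1) T.1 T.2
  have m2 : ∀ T : Cols U, star U ∘L (T : L2 κ →L[ℂ] L2 (κ × ι)) ∈ Cols U :=
    fun T => cols_mem (star U) (fun a ha h => (amu ι M κ U hU a ha h).2) T.1 T.2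
  let mU : Cols U → Cols U := fun T => ⟨U ∘L T.1, m1 T⟩
  let mS : Cols U → Cols U := fun T => ⟨star U ∘L T.1, m2 T⟩
  have hUS : ∀ T, mU (mS T) = T := by
    intro T
    apply Subtype.ext
    change U ∘L (star U ∘L T.1) = T.1
    rw [← ContinuousLinearMap.comp_assoc]
    have : U ∘L star U = 1 := hsU
    rw [this]
    rfl
  have hSU : ∀ T, mS (mU T) = T := by
    intro T
    apply Subtype.ext
    change star U ∘L (U ∘L T.1) = T.1
    rw [← ContinuousLinearMap.comp_assoc]
    have : star U ∘L U = 1 := hUs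
    rw [this]
    rfl
  have key : ∀ (S T S' T' : Cols U) (l l' : L2 κ'), (S.1)† ∘L T.1 = (S'.1)† ∘L T'.1 →
      ⟪P S l, P T l'⟫_ℂ = ⟪P S' l, P T' l'⟫_ℂ := by
    intro S T S' T' l l' h
    obtain ⟨b, h1, h2⟩ := P2 S T
    obtain ⟨b', h3, h4⟩ := P2 S' T'
    have h5 : b = b' := val_injective (by rw [h1, h3]; exact h)
    have h6 : ⟪P S l, P T l'⟫_ℂ = ⟪l, π b l'⟫_ℂ := by
      rw [h2, ContinuousLinearMap.comp_apply, ContinuousLinearMap.adjoint_inner_right]
    have h7 : ⟪P S' l, P T' l'⟫_ℂ = ⟪l, π b' l'⟫_ℂ := by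
      rw [h4, ContinuousLinearMap.comp_apply, ContinuousLinearMap.adjoint_inner_right]
    rw [h6, h7, h5]
  let d : Cols U × L2 κ' → L2 (κ' × ι) := fun p => P p.1 p.2
  have hcol : ∀ (a : Al U) (h : L2 ι), col (val a) h ∈ Cols U := fun a h =>
    Submodule.le_topologicalClosure _ (Submodule.subset_span ⟨val a, val_mem a, h, rfl⟩)
  have hPcol : ∀ (a : Al U) (h : L2 ι) (l : L2 κ'), P ⟨col (val a) h, hcol a h⟩ l = tn (π a l) h := by
    intro a h l
    rw [P1 a h ⟨col (val a) h, hcol a h⟩ rfl]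
    rfl
  have hd : Dense (Submodule.span ℂ (Set.range d) : Set (L2 (κ' × ι))) := by
    have h1 : ∀ (x : L2 κ') (h : L2 ι), tn x h ∈ (Submodule.span ℂ (Set.range d)).topologicalClosure := by
      intro x h
      have h2 : (Submodule.span ℂ {x : L2 κ' | ∃ a y, x = π a y}) ≤
          ((Submodule.span ℂ (Set.range d)).topologicalClosure).comap
            (emb (Equiv.refl (κ' × ι)) h : L2 κ' →ₗ[ℂ] L2 (κ' × ι)) := by
        rw [Submodule.span_le]
        rintro _ ⟨a, y, rfl⟩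
        refine Submodule.le_topologicalClosure _ (Submodule.subset_span ?_)
        exact ⟨(⟨col (val a) h, hcol a h⟩, y), hPcol a h y⟩
      have hcl : IsClosed ((fun x : L2 κ' => emb (Equiv.refl (κ' × ι)) h x) ⁻¹'
          ((Submodule.span ℂ (Set.range d)).topologicalClosure : Set (L2 (κ' × ι)))) :=
        (Submodule.isClosed_topologicalClosure _).preimage
          (emb (Equiv.refl (κ' × ι)) h).continuous
      exact closure_minimal (fun y hy => h2 hy) hcl (hπ x)
    have h2 : (Submodule.span ℂ {ζ : L2 (κ' × ι) | ∃ ξ g, ζ = tn ξ g}) ≤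
        (Submodule.span ℂ (Set.range d)).topologicalClosure := by
      rw [Submodule.span_le]
      rintro _ ⟨x, h, rfl⟩
      exact h1 x h
    intro ζ
    have h3 := closure_mono (fun y hy => h2 hy) (dense_span_tn ζ)
    rwa [(Submodule.isClosed_topologicalClosure _).closure_eq] at h3
  have adjU : ∀ S T : Cols U, ((mU S).1)† ∘L T.1 = (S.1)† ∘L (mS T).1 := by
    intro S T
    change (U ∘L S.1)† ∘L T.1 = (S.1)† ∘L (star U ∘L T.1)
    rw [ContinuousLinearMap.adjoint_comp]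
    rfl
  have adjS : ∀ S T : Cols U, ((mS S).1)† ∘L T.1 = (S.1)† ∘L (mU T).1 := by
    intro S T
    change (star U ∘L S.1)† ∘L T.1 = (S.1)† ∘L (U ∘L T.1)
    rw [ContinuousLinearMap.adjoint_comp, ContinuousLinearMap.star_eq_adjoint,
      ContinuousLinearMap.adjoint_adjoint]
    rfl
  obtain ⟨U', hU'⟩ := isom_aux d (fun p => P (mU p.1) p.2) hd (fun p q => key _ _ _ _ _ _ (by
    rw [adjU, hSU]))
  obtain ⟨U'', hU''⟩ := isom_aux d (fun p => P (mS p.1) p.2) hd (fun p q => key _ _ _ _ _ _ (by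
    rw [adjS, hUS]))
  have h1 : U' ∘L U'' = 1 := by
    refine ext_dense d hd _ _ fun p => ?_
    rw [ContinuousLinearMap.comp_apply, hU'']
    have h2 := hU' (mS p.1, p.2)
    change U' (P (mS p.1) p.2) = P (mU (mS p.1)) p.2 at h2
    rw [h2, hUS]
    rfl
  have h2 : U'' ∘L U' = 1 := by
    refine ext_dense d hd _ _ fun p => ?_
    rw [ContinuousLinearMap.comp_apply, hU']
    have h2 := hU'' (mU p.1, p.2)
    change U'' (P (mU p.1) p.2) = P (mS (mU p.1)) p.2 at h2
    rw [h2, hSU]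
    rfl
  have h3 : U'' = star U' := by
    refine ext_dense d hd _ _ fun p => ?_
    refine ext_inner_left ℂ fun z => ?_
    have h4 : (innerSL ℂ (U'' (d p)) : L2 (κ' × ι) →L[ℂ] ℂ) = innerSL ℂ (star U' (d p)) := by
      refine ext_dense d hd _ _ fun q => ?_
      rw [innerSL_apply_apply, innerSL_apply_apply, ContinuousLinearMap.star_eq_adjoint,
        ContinuousLinearMap.adjoint_inner_left, hU', hU'']
      exact key _ _ _ _ _ _ (adjS p.1 q.1)
    have h5 := DFunLike.congr_fun h4 z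
    rw [innerSL_apply_apply, innerSL_apply_apply] at h5
    rw [← inner_conj_symm, h5, inner_conj_symm]
  refine ⟨U', Unitary.mem_iff.2 ⟨?_, ?_⟩, fun u y => ?_⟩
  · rw [← h3]; exact h2
  · rw [← h3]; exact h1
  · refine ContinuousLinearMap.ext_on hπ ?_
    rintro _ ⟨a, l, rfl⟩
    refine ext_inner_left ℂ fun l' => ?_
    rw [inner_sl]
    have h4 : tn (π a l) y = d (⟨col (val a) y, hcol a y⟩, l) := (hPcol a y l).symm
    obtain ⟨b, h5, h6⟩ := P3 u (mU ⟨col (val a) y, hcol a y⟩)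
    have h7 : b = asl U u y * a := by
      apply val_injective
      rw [h5, map_mul, val_asl]
      rfl
    rw [h4, hU']
    have h8 : ⟪tn l' u, P (mU ⟨col (val a) y, hcol a y⟩) l⟫_ℂ = ⟪l', π b l⟫_ℂ := by
      rw [h6, ContinuousLinearMap.comp_apply, ContinuousLinearMap.adjoint_inner_right]
      rfl
    rw [h8, h7, map_mul]
    rfl

end Pool.Agent.MQG.H59
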